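import Pool.Agent.N585.PA.Main
import Pool.Agent.N7.PAmach
import Pool.Agent.N199.PA2
import Pool.Agent.N833.PASound
import Pool.Agent.N701.PA4
import Pool.Agent.N364.PAcomp
import Pool.Agent.N711.PAcode
import Pool.Agent.N225.PA7

/-!
# Iterated public announcements over finite epistemic models (MP_6a7b9a_lc, Q1)

With at least two agents, the finitely valid formulas are not decidable, and every
recursively enumerable set is many-one reducible to the set of the formulas which are not finitely
valid: the set of finitely valid formulas is `Π⁰₁`-hard. With one agent, small models suffice.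

The language (`Form`), the models (`Model`), truth (`sat`), finite validity (`FinValid`) and the
Goedel numbers of formulas (`code`) are defined in `Pool.Agent.N585.PA.Defs`, as well as
`Below m φ` (all letters of `φ` are smaller than `m`) and `canon T` (the model whose worlds are the
valuations in `T`, all of them indistinguishable for each agent).
-/

set_option autoImplicit false

namespace Pool.Agent.Results.MP_6a7b9a_lc.FinitelyValidUndecidable

open Pool.Agent.N585.PA Nat.Partrec

theorem undecidable {k : ℕ} (hinj : Function.Injective (code (k := k)))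
    (hard : ∀ p : ℕ → Prop, REPred p →
      ∃ f : ℕ → Form (Fin k), Computable (fun n => code (f n)) ∧ ∀ n, p n ↔ ¬ FinValid (f n)) :
    ¬ ComputablePred (fun n => ∃ φ : Form (Fin k), code φ = n ∧ FinValid φ) := by
  intro h
  have hre : REPred (fun n : ℕ => (Code.eval (Denumerable.ofNat Code n) 0).Dom) :=
    (ComputablePred.halting_problem_re 0).comp (Computable.ofNat Code)
  obtain ⟨f, hf, hpf⟩ := hard _ hre
  obtain ⟨g, hg, hQ⟩ := ComputablePred.computable_iff.1 h
  apply ComputablePred.halting_problem 0
  refine ComputablePred.computable_iff.2 ⟨fun c => !(g (code (f (Encodable.encode c)))), ?_, ?_⟩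
  · exact (Primrec.not.to_comp).comp (hg.comp (hf.comp Computable.encode))
  · funext c
    apply propext
    have h1 := hpf (Encodable.encode c)
    rw [Denumerable.ofNat_encode] at h1
    have h2 : (∃ φ : Form (Fin k), code φ = code (f (Encodable.encode c)) ∧ FinValid φ) ↔
        g (code (f (Encodable.encode c))) = true := iff_of_eq (congrFun hQ _)
    have h3 : FinValid (f (Encodable.encode c)) ↔ g (code (f (Encodable.encode c))) = true := by
      rw [← h2]
      exact ⟨fun h => ⟨_, rfl, h⟩, fun ⟨φ, h, h'⟩ => hinj h ▸ h'⟩
    rw [h1, h3]
    simp

/-- **Q1.** For at least two agents: for each recursively enumerable `p` there is a computable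
map from numbers `n` to formulas `f n` such that `p n` holds if and only if `f n` is not finitely
valid; in particular, the set of (the Goedel numbers of) the finitely valid formulas is not
decidable. For one agent: a formula with letters smaller than `m` is finitely valid if and only if
it is true in all models whose worlds are pairwise different valuations of these letters. -/
theorem result :
    (∀ k : ℕ, Function.Injective (code (k := k))) ∧
    (∀ k : ℕ, 2 ≤ k → ∀ p : ℕ → Prop, REPred p →
      ∃ f : ℕ → Form (Fin k), Computable (fun n => code (f n)) ∧ ∀ n, p n ↔ ¬ FinValid (f n)) ∧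
    (∀ k : ℕ, 2 ≤ k →
      ¬ ComputablePred (fun n => ∃ φ : Form (Fin k), code φ = n ∧ FinValid φ)) ∧
    (∀ (A : Type) [Unique A] (m : ℕ) (φ : Form A), Below m φ →
      (FinValid φ ↔ ∀ (T : Finset (Fin m → Bool)) (x : ↥T), sat (canon T) φ Set.univ x)) := by
  have hH := hard Pool.Agent.N7.PAmach.stmMach
    (Pool.Agent.N833.PASound.stmSound Pool.Agent.N199.PA2.stmPeel)
    (Pool.Agent.N701.PA4.stmModel Pool.Agent.N199.PA2.stmPeel)
    Pool.Agent.N364.PAcomp.stmComp
  exact ⟨Pool.Agent.N711.PAcode.stmCode, fun k hk p hp => hH k hk p hp,
    fun k hk => undecidable (Pool.Agent.N711.PAcode.stmCode k) (hH k hk),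
    Pool.Agent.N225.PA7.stmSmall⟩

end Pool.Agent.Results.MP_6a7b9a_lc.FinitelyValidUndecidable
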